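import Mathlib
import Pool.Agent.H.MP_695dce_co.A

set_option autoImplicit false

namespace Pool.Agent.Results.MP_695dce_co.Three

open Filter Topology

/-- The closed solid (axis-parallel) cube with lowest corner `a` and side length `l`. -/
def cube (a : EuclideanSpace ℝ (Fin 3)) (l : ℝ) : Set (EuclideanSpace ℝ (Fin 3)) :=
  {x | ∀ j, a j ≤ x j ∧ x j ≤ a j + l}

/-- `T` (corner and side length of each of `n` cubes) is a tiling of the unit cube `[0,1]^3`:
positive side lengths, pairwise disjoint interiors, union equal to the unit cube. -/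
def IsTiling {n : ℕ} (T : Fin n → EuclideanSpace ℝ (Fin 3) × ℝ) : Prop :=
  (∀ i, 0 < (T i).2) ∧
  (∀ i i', i ≠ i' →
    Disjoint (interior (cube (T i).1 (T i).2)) (interior (cube (T i').1 (T i').2))) ∧
  (⋃ i, cube (T i).1 (T i).2) = {x | ∀ j, 0 ≤ x j ∧ x j ≤ 1}

/-- The number of distinct side lengths. -/
noncomputable def sizes {n : ℕ} (T : Fin n → EuclideanSpace ℝ (Fin 3) × ℝ) : ℕ :=
  (Set.range fun i => (T i).2).ncard

/-- The ratio of the largest side length to the smallest side length. -/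
noncomputable def ratio {n : ℕ} (T : Fin n → EuclideanSpace ℝ (Fin 3) × ℝ) : ℝ :=
  (⨆ i, (T i).2) / (⨅ i, (T i).2)

open Pool.Agent.H.MP_695dce_co in
lemma step (t n : ℕ) (ht : 12 ≤ t) (hn : (t + 2) ^ 6 ≤ n) :
    ∃ T : Fin n → EuclideanSpace ℝ (Fin 3) × ℝ, IsTiling T ∧ sizes T ≤ 3 ∧
      1 ≤ ratio T ∧ ratio T ≤ 1 + 2 / t := by
  obtain ⟨m, q, y, z, hm, hq, hyz, hc⟩ := exists_data t n ht hn
  obtain ⟨a, l, h1, h2, h3, h4⟩ := construct t m q y z (by omega) hm hq hyz n hc
  have hm' : (0 : ℝ) < m := by exact_mod_cast hm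
  have ht' : (0 : ℝ) < t := by exact_mod_cast (by omega : 0 < t)
  have hn0 : 0 < n := lt_of_lt_of_le (by positivity) hn
  haveI : Nonempty (Fin n) := ⟨⟨0, hn0⟩⟩
  have lo : ∀ i, (t : ℝ) / (t + 1) ≤ l i := fun i => by
    rcases h1 i with h | h | h <;> rw [h]
    · rw [div_le_one (by positivity)]; linarith
    · gcongr; linarith
  have hi : ∀ i, l i ≤ (t + 2 : ℝ) / (t + 1) := fun i => by
    rcases h1 i with h | h | h <;> rw [h]
    · rw [one_le_div (by positivity)]; linarith
    · gcongr; linarith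
  have lpos : ∀ i, 0 < l i := fun i => lt_of_lt_of_le (by positivity) (lo i)
  refine ⟨fun i => (WithLp.toLp 2 fun j => a i j / m, l i / m), ⟨?_, ?_, ?_⟩, ?_, ?_, ?_⟩
  · intro i; exact div_pos (lpos i) hm'
  · intro i i' hne
    rw [Set.disjoint_left]
    intro x hx hx'
    apply hne
    refine h2 i i' (fun j => x j * m) (fun j => ?_) (fun j => ?_)
    · have := interior_sub _ _ hx j
      simp only at this
      rw [← add_div, div_lt_iff₀ hm', lt_div_iff₀ hm'] at this
      exact this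
    · have := interior_sub _ _ hx' j
      simp only at this
      rw [← add_div, div_lt_iff₀ hm', lt_div_iff₀ hm'] at this
      exact this
  · ext x
    simp only [Set.mem_iUnion, cube, Set.mem_ofPred_eq]
    constructor
    · rintro ⟨i, hi⟩ j
      have := hi j
      rw [← add_div, div_le_iff₀ hm', le_div_iff₀ hm'] at this
      have b := h3 i j
      constructor
      · by_contra hc
        have : x j * m < 0 := mul_neg_of_neg_of_pos (not_le.mp hc) hm'
        linarith [this, b.1]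
      · by_contra hc
        have : 1 * (m : ℝ) < x j * m := mul_lt_mul_of_pos_right (not_le.mp hc) hm'
        linarith [this, b.2]
    · intro hx
      obtain ⟨i, hi⟩ := h4 (fun j => x j * m) (fun j =>
        ⟨mul_nonneg (hx j).1 hm'.le, by nlinarith [(hx j).2]⟩)
      refine ⟨i, fun j => ?_⟩
      rw [← add_div, div_le_iff₀ hm', le_div_iff₀ hm']
      exact hi j
  · unfold sizes
    have : (Set.range fun i => l i / m) ⊆
        {1 / (m : ℝ), (t + 2) / (t + 1) / (m : ℝ), t / (t + 1) / (m : ℝ)} := by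
      rintro _ ⟨i, rfl⟩
      rcases h1 i with h | h | h <;> simp [h]
    refine (Set.ncard_le_ncard this (Set.toFinite _)).trans ?_
    refine (Set.ncard_insert_le _ _).trans ?_
    have := Set.ncard_insert_le ((t + 2) / (t + 1) / (m : ℝ)) {t / (t + 1) / (m : ℝ)}
    rw [Set.ncard_singleton] at this
    omega
  · unfold ratio
    have b1 : t / (t + 1) / (m : ℝ) ≤ ⨅ i, l i / m := le_ciInf fun i => by gcongr; exact lo i
    have b2 : (⨅ i, l i / (m : ℝ)) ≤ ⨆ i, l i / (m : ℝ) :=
      (ciInf_le (Set.finite_range _).bddBelow ⟨0, hn0⟩).trans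
        (le_ciSup (f := fun i => l i / (m : ℝ)) (Set.finite_range _).bddAbove ⟨0, hn0⟩)
    rw [one_le_div (lt_of_lt_of_le (by positivity) b1)]
    exact b2
  · unfold ratio
    have b1 : t / (t + 1) / (m : ℝ) ≤ ⨅ i, l i / m := le_ciInf fun i => by gcongr; exact lo i
    have b2 : (⨆ i, l i / (m : ℝ)) ≤ (t + 2) / (t + 1) / (m : ℝ) :=
      ciSup_le fun i => by gcongr; exact hi i
    calc (⨆ i, l i / (m : ℝ)) / (⨅ i, l i / m)
        ≤ ((t + 2) / (t + 1) / (m : ℝ)) / (t / (t + 1) / (m : ℝ)) := by gcongr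
      _ = 1 + 2 / t := by field_simp

theorem result : ∃ n₀ : ℕ, ∃ T : (n : ℕ) → Fin n → EuclideanSpace ℝ (Fin 3) × ℝ,
    (∀ n, n₀ ≤ n → IsTiling (T n) ∧ sizes (T n) ≤ 3) ∧
    Tendsto (fun n => ratio (T n)) atTop (𝓝 1) := by
  classical
  let s : ℕ → ℕ := fun n => Nat.findGreatest (fun t => (t + 2) ^ 6 ≤ n) n
  have hs : ∀ S n, (S + 2) ^ 6 ≤ n → S ≤ s n ∧ (s n + 2) ^ 6 ≤ n := by
    intro S n h
    have hS : S ≤ n := by
      have : S + 2 ≤ (S + 2) ^ 6 := Nat.le_self_pow (by norm_num) _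
      omega
    exact ⟨Nat.le_findGreatest hS h, Nat.findGreatest_spec (P := fun t => (t + 2) ^ 6 ≤ n) hS h⟩
  have : ∀ n, ∃ T : Fin n → EuclideanSpace ℝ (Fin 3) × ℝ, (12 + 2) ^ 6 ≤ n →
      IsTiling T ∧ sizes T ≤ 3 ∧ 1 ≤ ratio T ∧ ratio T ≤ 1 + 2 / s n := by
    intro n
    by_cases h : (12 + 2) ^ 6 ≤ n
    · obtain ⟨T, hT⟩ := step (s n) n (hs 12 n h).1 (hs 12 n h).2
      exact ⟨T, fun _ => hT⟩
    · exact ⟨fun _ => (0, 0), fun h' => absurd h' h⟩
  choose T hT using this
  refine ⟨(12 + 2) ^ 6, T, fun n hn => ⟨(hT n hn).1, (hT n hn).2.1⟩, ?_⟩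
  have hst : Tendsto s atTop atTop :=
    tendsto_atTop.mpr fun S => (eventually_ge_atTop ((S + 2) ^ 6)).mono fun n h => (hs S n h).1
  have hlim : Tendsto (fun n => 1 + 2 / (s n : ℝ)) atTop (𝓝 1) := by
    have := (tendsto_const_div_atTop_nhds_zero_nat (2 : ℝ)).comp hst
    simpa using this.const_add 1
  refine tendsto_of_tendsto_of_tendsto_of_le_of_le' tendsto_const_nhds hlim ?_ ?_
  · exact (eventually_ge_atTop _).mono fun n h => (hT n h).2.2.1
  · exact (eventually_ge_atTop _).mono fun n h => (hT n h).2.2.2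

end Pool.Agent.Results.MP_695dce_co.Three
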